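import Pool.Agent.Helper47.ME.Goals
import Pool.Agent.Helper47.AQ.Affine

/-!
# ME, packet GEZE: the equality case for the diagonals

Adapted from the proof of GEZ (MK) by helper97.
-/

open MeasureTheory Set Filter Topology
open scoped ENNReal Quaternion
open Pool.Agent.Helper47.AQ Pool.Agent.Helper72.MK Pool.Agent.Helper47.ME

noncomputable section

namespace Pool.Agent.Helper39.ME

lemma ip_add_l (x y z : Fin 3 → ℝ) : ip (x + y) z = ip x z + ip y z := by
  unfold ip
  rw [← Finset.sum_add_distrib]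
  exact Finset.sum_congr rfl fun i _ => by simp only [Pi.add_apply]; ring

lemma ip_sub_l (x y z : Fin 3 → ℝ) : ip (x - y) z = ip x z - ip y z := by
  unfold ip
  rw [← Finset.sum_sub_distrib]
  exact Finset.sum_congr rfl fun i _ => by simp only [Pi.sub_apply]; ring

lemma ip_smul_l (c : ℝ) (x z : Fin 3 → ℝ) : ip (c • x) z = c * ip x z := by
  unfold ip
  rw [Finset.mul_sum]
  exact Finset.sum_congr rfl fun i _ => by simp only [Pi.smul_apply, smul_eq_mul]; ring

lemma ip_comm (x z : Fin 3 → ℝ) : ip x z = ip z x := by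
  unfold ip
  exact Finset.sum_congr rfl fun i _ => by ring

lemma ip_add_r (x y z : Fin 3 → ℝ) : ip z (x + y) = ip z x + ip z y := by
  rw [ip_comm, ip_add_l, ip_comm x, ip_comm y]

lemma ip_sub_r (x y z : Fin 3 → ℝ) : ip z (x - y) = ip z x - ip z y := by
  rw [ip_comm, ip_sub_l, ip_comm x, ip_comm y]

lemma ip_smul_r (c : ℝ) (x z : Fin 3 → ℝ) : ip z (c • x) = c * ip z x := by
  rw [ip_comm, ip_smul_l, ip_comm x]

lemma sum_smul (v : Fin 3 → Fin 3 → ℝ) (y : Fin 3 → ℝ) :
    ∑ j, y j • v j = (Matrix.of fun i j => v j i).mulVec y := by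
  funext i
  simp only [Finset.sum_apply, Pi.smul_apply, smul_eq_mul, Matrix.mulVec, dotProduct,
    Matrix.of_apply]
  exact Finset.sum_congr rfl fun j _ => mul_comm _ _

theorem geze (hFRM : FRMStmt) (hTR : TRStmt) (hSTD : STDStmt) : GEZEStmt := by
  intro K hK hFK t ht g hg hQ u g1 g2 g3 g4 y hy hyz
  obtain ⟨-, -, ⟨h11, h22, h33, h12, h13, h23⟩, -, -⟩ := hFRM.2 g hg
  have h21 : ip (q2 g) (q1 g) = 0 := by rw [ip_comm]; exact h12
  have h31 : ip (q3 g) (q1 g) = 0 := by rw [ip_comm]; exact h13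
  have h32 : ip (q3 g) (q2 g) = 0 := by rw [ip_comm]; exact h23
  set n : Fin 3 → Fin 3 → ℝ := ![n1 t g, n2 t g, q3 g] with hn
  set m : Fin 3 → Fin 3 → ℝ := ![m1 t g, m2 t g, q3 g] with hm
  have hn0 : n 0 = n1 t g := rfl
  have hn1' : n 1 = n2 t g := rfl
  have hn2' : n 2 = q3 g := rfl
  have hm0 : m 0 = m1 t g := rfl
  have hm1' : m 1 = m2 t g := rfl
  have hm2' : m 2 = q3 g := rfl
  have htne : t ≠ 0 := ht.ne'
  have d00 : ip (m1 t g) (n1 t g) = 1 := by
    unfold m1 n1
    simp only [ip_smul_l, ip_add_l, ip_add_r, ip_smul_r, h11, h22, h12, h21]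
    field_simp
    ring
  have d01 : ip (m1 t g) (n2 t g) = 0 := by
    unfold m1 n2
    simp only [ip_smul_l, ip_add_l, ip_sub_r, ip_smul_r, h11, h22, h12, h21]
    field_simp
    ring
  have d02 : ip (m1 t g) (q3 g) = 0 := by
    unfold m1
    simp only [ip_smul_l, ip_add_l, h13, h23]
    ring
  have d10 : ip (m2 t g) (n1 t g) = 0 := by
    unfold m2 n1
    simp only [ip_smul_l, ip_sub_l, ip_add_r, ip_smul_r, h11, h22, h12, h21]
    field_simp
    ring
  have d11 : ip (m2 t g) (n2 t g) = 1 := by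
    unfold m2 n2
    simp only [ip_smul_l, ip_sub_l, ip_sub_r, ip_smul_r, h11, h22, h12, h21]
    field_simp
    ring
  have d12 : ip (m2 t g) (q3 g) = 0 := by
    unfold m2
    simp only [ip_smul_l, ip_sub_l, h13, h23]
    ring
  have d20 : ip (q3 g) (n1 t g) = 0 := by
    unfold n1
    simp only [ip_add_r, ip_smul_r, h31, h32]
    ring
  have d21 : ip (q3 g) (n2 t g) = 0 := by
    unfold n2
    simp only [ip_sub_r, ip_smul_r, h31, h32]
    ring
  have hdual : ∀ i j, ip (m i) (n j) = if i = j then 1 else 0 := by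
    intro i j
    fin_cases i <;> fin_cases j <;>
      simp [hn, hm, d00, d01, d02, d10, d11, d12, d20, d21, h33]
  -- the Gram matrix of `m`
  have e00 : ip (m1 t g) (m1 t g) = 1 / 4 * (1 + (t⁻¹) ^ 2) := by
    unfold m1
    simp only [ip_smul_l, ip_add_l, ip_add_r, ip_smul_r, h11, h22, h12, h21]
    ring
  have e01 : ip (m1 t g) (m2 t g) = 1 / 4 * (1 - (t⁻¹) ^ 2) := by
    unfold m1 m2
    simp only [ip_smul_l, ip_add_l, ip_sub_r, ip_smul_r, h11, h22, h12, h21]
    ring
  have e11 : ip (m2 t g) (m2 t g) = 1 / 4 * (1 + (t⁻¹) ^ 2) := by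
    unfold m2
    simp only [ip_smul_l, ip_sub_l, ip_sub_r, ip_smul_r, h11, h22, h12, h21]
    ring
  have e10 : ip (m2 t g) (m1 t g) = 1 / 4 * (1 - (t⁻¹) ^ 2) := by rw [ip_comm, e01]
  have e20 : ip (q3 g) (m1 t g) = 0 := by rw [ip_comm, d02]
  have e21 : ip (q3 g) (m2 t g) = 0 := by rw [ip_comm, d12]
  set Mm : Matrix (Fin 3) (Fin 3) ℝ := Matrix.of fun i j => m j i with hMm
  set Nm : Matrix (Fin 3) (Fin 3) ℝ := Matrix.of fun i j => n j i with hNm
  have hgram : Mm.transpose * Mm = Matrix.of fun i j => ip (m i) (m j) := by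
    ext i j
    simp only [Matrix.mul_apply, Matrix.transpose_apply, hMm, Matrix.of_apply, ip]
  have hdet2 : Mm.det ^ 2 = (2 * t)⁻¹ ^ 2 := by
    have h1 : (Mm.transpose * Mm).det = Mm.det ^ 2 := by
      rw [Matrix.det_mul, Matrix.det_transpose, sq]
    rw [← h1, hgram, Matrix.det_fin_three]
    simp only [Matrix.of_apply, hm0, hm1', hm2', e00, e01, e11, e10, e20, e21, d02, d12, h33]
    rw [mul_inv]
    ring
  have hdetabs : |Mm.det| = (2 * t)⁻¹ := by
    have h1 : |Mm.det| ^ 2 = (2 * t)⁻¹ ^ 2 := by rw [sq_abs, hdet2]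
    exact (pow_left_inj₀ (abs_nonneg _) (by positivity) two_ne_zero).mp h1
  have hdetne : Mm.det ≠ 0 := by
    intro h
    rw [h, abs_zero] at hdetabs
    have : 0 < (2 * t)⁻¹ := by positivity
    linarith
  have hMN : Mm.transpose * Nm = 1 := by
    ext i j
    simp only [Matrix.mul_apply, Matrix.transpose_apply, hMm, hNm, Matrix.of_apply,
      Matrix.one_apply]
    exact hdual i j
  have hNM : Nm * Mm.transpose = 1 := mul_eq_one_comm.mp hMN
  -- the change of basis
  obtain ⟨hK', hdp, hF⟩ := hTR K n m hK hdual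
  set K' : Set (Fin 3 → ℝ) := {y : Fin 3 → ℝ | ∑ j, y j • n j ∈ K} with hK'def
  have hip : ∀ (p : Fin 3 → ℝ) (j : Fin 3), ip (∑ i, p i • m i) (n j) = p j := by
    intro p j
    rw [Fin.sum_univ_three]
    simp only [ip_add_l, ip_smul_l, hdual]
    fin_cases j <;> simp
  -- volumes
  have hvol : ∀ A : Set (Fin 3 → ℝ),
      (volume {p : Fin 3 → ℝ | ∑ i, p i • m i ∈ A}).toReal = 2 * t * (volume A).toReal := by
    intro A
    have h1 : {p : Fin 3 → ℝ | ∑ i, p i • m i ∈ A} = (Matrix.toLin' Mm) ⁻¹' A := by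
      ext p
      rw [Set.mem_preimage, Matrix.toLin'_apply, hMm, ← sum_smul]
      rfl
    have h2 : LinearMap.det (Matrix.toLin' Mm) ≠ 0 := by
      rw [LinearMap.det_toLin']
      exact hdetne
    rw [h1, Measure.addHaar_preimage_linearMap volume h2, LinearMap.det_toLin', ENNReal.toReal_mul,
      ENNReal.toReal_ofReal (abs_nonneg _), abs_inv, hdetabs, inv_inv]
  have hV : (volume (dpol K')).toReal = 2 * t * (volume (dpol K)).toReal := by
    rw [hdp]
    exact hvol _
  have hquad : (volume (dpol K' ∩ {x | 0 < x 0 ∧ 0 < x 1})).toReal =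
      (volume (dpol K')).toReal / 4 := by
    have h1 : dpol K' ∩ {x | 0 < x 0 ∧ 0 < x 1} =
        {p : Fin 3 → ℝ | ∑ i, p i • m i ∈ dpol K ∩ {x | t * |ip x (q2 g)| < ip x (q1 g)}} := by
      rw [hdp]
      ext p
      simp only [Set.mem_inter_iff, Set.mem_ofPred_eq]
      refine and_congr_right fun _ => ?_
      have k0 := hip p 0
      have k1 := hip p 1
      rw [hn0] at k0
      rw [hn1'] at k1
      unfold n1 at k0
      unfold n2 at k1
      rw [ip_add_r, ip_smul_r] at k0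
      rw [ip_sub_r, ip_smul_r] at k1
      set X := ip (∑ i, p i • m i) (q1 g) with hX
      set Y := ip (∑ i, p i • m i) (q2 g) with hY
      rw [← k0, ← k1]
      constructor
      · rintro ⟨a1, a2⟩
        rcases abs_cases Y with ⟨h, _⟩ | ⟨h, _⟩
        · rw [h]; linarith
        · rw [h]; linarith
      · intro a
        have b1 : t * Y ≤ t * |Y| := mul_le_mul_of_nonneg_left (le_abs_self _) ht.le
        have b2 : t * (-Y) ≤ t * |Y| := mul_le_mul_of_nonneg_left (neg_le_abs _) ht.le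
        constructor <;> linarith
    rw [h1, hvol, hV]
    have h2 : (volume (dpol K ∩ {x | t * |ip x (q2 g)| < ip x (q1 g)})).toReal =
        (volume (dpol K)).toReal / 4 := hQ
    rw [h2]
    ring
  have hs0 : (volume (sec 0 (dpol K'))).toReal = Ar (dpol K) (m2 t g) (q3 g) := by
    unfold Ar
    congr 2
    ext y
    rw [hdp]
    simp only [sec, Set.mem_ofPred_eq]
    rw [Fin.sum_univ_three]
    have i0 : (Fin.insertNth (0 : Fin 3) (0 : ℝ) y : Fin 3 → ℝ) 0 = 0 :=
      Fin.insertNth_apply_same _ _ _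
    have i1 : (Fin.insertNth (0 : Fin 3) (0 : ℝ) y : Fin 3 → ℝ) 1 = y 0 :=
      Fin.insertNth_apply_succAbove (α := fun _ => ℝ) (0 : Fin 3) (0 : ℝ) y 0
    have i2 : (Fin.insertNth (0 : Fin 3) (0 : ℝ) y : Fin 3 → ℝ) 2 = y 1 :=
      Fin.insertNth_apply_succAbove (α := fun _ => ℝ) (0 : Fin 3) (0 : ℝ) y 1
    rw [i0, i1, i2, zero_smul, zero_add, hm1', hm2']
  have hs1 : (volume (sec 1 (dpol K'))).toReal = Ar (dpol K) (m1 t g) (q3 g) := by
    unfold Ar
    congr 2
    ext y
    rw [hdp]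
    simp only [sec, Set.mem_ofPred_eq]
    rw [Fin.sum_univ_three]
    have i0 : (Fin.insertNth (1 : Fin 3) (0 : ℝ) y : Fin 3 → ℝ) 1 = 0 :=
      Fin.insertNth_apply_same _ _ _
    have i1 : (Fin.insertNth (1 : Fin 3) (0 : ℝ) y : Fin 3 → ℝ) 0 = y 0 :=
      Fin.insertNth_apply_succAbove (α := fun _ => ℝ) (1 : Fin 3) (0 : ℝ) y 0
    have i2 : (Fin.insertNth (1 : Fin 3) (0 : ℝ) y : Fin 3 → ℝ) 2 = y 1 :=
      Fin.insertNth_apply_succAbove (α := fun _ => ℝ) (1 : Fin 3) (0 : ℝ) y 1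
    rw [i0, i1, i2, zero_smul, add_zero, hm0, hm2']
  set a : ℝ := 2 * (volume (sec 0 (dpol K'))).toReal / (3 * (volume (dpol K')).toReal) with ha
  set b : ℝ := 2 * (volume (sec 1 (dpol K'))).toReal / (3 * (volume (dpol K')).toReal) with hb
  have hVpos : 0 < (volume (dpol K)).toReal := hK.dpol_pos
  have ha' : a = Ar (dpol K) (m2 t g) (q3 g) / (3 * t * (volume (dpol K)).toReal) := by
    rw [ha, hs0, hV]
    field_simp
  have hb' : b = Ar (dpol K) (m1 t g) (q3 g) / (3 * t * (volume (dpol K)).toReal) := by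
    rw [hb, hs1, hV]
    field_simp
  have hzp : zp K t g = a • n1 t g + b • n2 t g := by
    unfold zp zA zB
    rw [ha', hb']
  have hzm : zm K t g = a • n1 t g - b • n2 t g := by
    unfold zm zA zB
    rw [ha', hb']
  -- the map `y ↦ ∑ y j • n j`
  have hBp : ∑ j, (![a, b, 0] : Fin 3 → ℝ) j • n j = zp K t g := by
    rw [Fin.sum_univ_three, hzp, hn0, hn1', hn2']
    simp
  have hBm : ∑ j, (![a, -b, 0] : Fin 3 → ℝ) j • n j = zm K t g := by
    rw [Fin.sum_univ_three, hzm, hn0, hn1', hn2']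
    simp [sub_eq_add_neg]
  have hBsub : ∀ x y : Fin 3 → ℝ, ∑ j, (x - y) j • n j = ∑ j, x j • n j - ∑ j, y j • n j := by
    intro x y
    rw [← Finset.sum_sub_distrib]
    exact Finset.sum_congr rfl fun j _ => by rw [Pi.sub_apply, sub_smul]
  have hBadd : ∀ x y : Fin 3 → ℝ, ∑ j, (x + y) j • n j = ∑ j, x j • n j + ∑ j, y j • n j := by
    intro x y
    rw [← Finset.sum_add_distrib]
    exact Finset.sum_congr rfl fun j _ => by rw [Pi.add_apply, add_smul]
  have hBsmul : ∀ (c : ℝ) (x : Fin 3 → ℝ), ∑ j, (c • x) j • n j = c • ∑ j, x j • n j := by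
    intro c x
    rw [Finset.smul_sum]
    exact Finset.sum_congr rfl fun j _ => by rw [Pi.smul_apply, smul_eq_mul, mul_smul]
  set c' : Fin 3 → ℝ := Mm.transpose.mulVec u with hc'
  have hBc : ∑ j, c' j • n j = u := by
    rw [sum_smul, ← hNm, hc', Matrix.mulVec_mulVec, hNM, Matrix.one_mulVec]
  set y' : Fin 3 → ℝ := fun j => ip y (n j) with hy'
  have hy'sum : ∑ i, y' i • m i = y := by
    have h1 : y' = Nm.transpose.mulVec y := by
      funext j
      simp only [hy', hNm, Matrix.mulVec, dotProduct, Matrix.transpose_apply, Matrix.of_apply, ip]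
      exact Finset.sum_congr rfl fun i _ => by ring
    have h2 : Mm * Nm.transpose = 1 := by
      have h3 := congrArg Matrix.transpose hNM
      rwa [Matrix.transpose_mul, Matrix.transpose_transpose, Matrix.transpose_one] at h3
    rw [sum_smul, ← hMm, h1, Matrix.mulVec_mulVec, h2, Matrix.one_mulVec]
  have hy'mem : y' ∈ dpol K' := by
    rw [hdp]
    show ∑ i, y' i • m i ∈ dpol K
    rw [hy'sum]
    exact hy
  have hy'ip : ip y' ![a, b, 0] = 1 := by
    have h0 : ip y' ![a, b, 0] = y' 0 * a + y' 1 * b + y' 2 * 0 := by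
      unfold ip
      rw [Fin.sum_univ_three]
      rfl
    have h1 : ip y' ![a, b, 0] = a * ip y (n1 t g) + b * ip y (n2 t g) := by
      rw [h0]
      have k0 : y' 0 = ip y (n1 t g) := rfl
      have k1 : y' 1 = ip y (n2 t g) := rfl
      rw [k0, k1]
      ring
    rw [h1, ← hyz, hzp, ip_add_r, ip_smul_r, ip_smul_r]
  have hsimp : IsSimplex K' := by
    refine hSTD K' hK' (hF.trans hFK) hquad a b c' y' ha hb ?_ ?_ ?_ ?_ hy'mem hy'ip
    · show ∑ j, (c' + (1 / 2 : ℝ) • ![a, b, 0]) j • n j ∈ K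
      rw [hBadd, hBsmul, hBc, hBp]
      exact g1
    · show ∑ j, (c' - (1 / 2 : ℝ) • ![a, b, 0]) j • n j ∈ K
      rw [hBsub, hBsmul, hBc, hBp]
      exact g2
    · show ∑ j, (c' + (1 / 2 : ℝ) • ![a, -b, 0]) j • n j ∈ K
      rw [hBadd, hBsmul, hBc, hBm]
      exact g3
    · show ∑ j, (c' - (1 / 2 : ℝ) • ![a, -b, 0]) j • n j ∈ K
      rw [hBsub, hBsmul, hBc, hBm]
      exact g4
  set B : (Fin 3 → ℝ) ≃ₗ[ℝ] (Fin 3 → ℝ) := Matrix.toLin'OfInv hMN hNM with hB
  have hBapp : ∀ x, B x = ∑ j, x j • n j := by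
    intro x
    rw [sum_smul, ← hNm]
    rfl
  have hKB : K = B.toAffineEquiv '' K' := by
    ext x
    constructor
    · intro hx
      refine ⟨B.symm x, ?_, ?_⟩
      · show ∑ j, (B.symm x) j • n j ∈ K
        rw [← hBapp, LinearEquiv.apply_symm_apply]
        exact hx
      · show B (B.symm x) = x
        exact B.apply_symm_apply x
    · rintro ⟨z, hz, rfl⟩
      show B z ∈ K
      rw [hBapp]
      exact hz
  rw [hKB]
  exact hsimp.affine B.toAffineEquiv

end Pool.Agent.Helper39.ME
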